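import Pool.Agent.H34.FS.Targets
import Pool.Agent.H27.FQ.UC2

/-!
# Row CRL of hfs_modules: the local classes are multiplicative
-/

set_option autoImplicit false

open Finset Pool.Agent.H32.RQ Pool.Agent.H34.FQ

namespace Pool.Agent.H52.HFS

open Pool.Agent.H34.FS Pool.Agent.H27.FQ.UC2

/-- the two conditions in the definition of `UL` -/
def Cd {r : ℕ} (F : Fin 2 → Mon r → ℤ) (c M : ℕ) (L : Fin 2 → Fin (r + 1) → ℤ)
    (u : Fin r → ℤ) : Prop :=
  (∀ i, (M : ℤ) ∣ qf (gg F L i) (cv (c : ℤ) u)) ∧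
    ∀ p : ℕ, p.Prime → p ∣ M → p ∣ c → ∃ i, ¬ (p : ℤ) ∣ u i

theorem mem_UL {r : ℕ} (F : Fin 2 → Mon r → ℤ) (c M : ℕ) (L : Fin 2 → Fin (r + 1) → ℤ)
    (u : Fin r → ℤ) : u ∈ UL F c M L ↔ (∀ i, 0 ≤ u i ∧ u i < M) ∧ Cd F c M L u := by
  unfold UL Cd
  simp only [mem_filter, Fintype.mem_piFinset, mem_Ico]

theorem Cd_mp {r : ℕ} (F : Fin 2 → Mon r → ℤ) (L : Fin 2 → Fin (r + 1) → ℤ) {c M : ℕ}
    {u u' : Fin r → ℤ} (hu : ∀ i, (M : ℤ) ∣ u i - u' i) (h : Cd F c M L u) :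
    Cd F c M L u' := by
  refine ⟨fun i => ?_, fun p hp hpM hpc => ?_⟩
  · have h1 := h.1 i
    rw [← ZMod.intCast_zmod_eq_zero_iff_dvd, qf_cast] at h1 ⊢
    have e : (fun j => ((cv (c : ℤ) u j : ℤ) : ZMod M)) =
        fun j => ((cv (c : ℤ) u' j : ℤ) : ZMod M) := by
      funext j
      refine Fin.cases rfl (fun i => ?_) j
      exact (cast_eq_iff M _ _).1 (hu i)
    rw [← e]
    exact h1
  · obtain ⟨i, hi⟩ := h.2 p hp hpM hpc
    refine ⟨i, fun h1 => hi ?_⟩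
    have h2 : (p : ℤ) ∣ (M : ℤ) := by exact_mod_cast hpM
    have h3 := dvd_add (h2.trans (hu i)) h1
    rwa [sub_add_cancel] at h3

theorem Cd_iff {r : ℕ} (F : Fin 2 → Mon r → ℤ) (L : Fin 2 → Fin (r + 1) → ℤ) {c M : ℕ}
    {u u' : Fin r → ℤ} (hu : ∀ i, (M : ℤ) ∣ u i - u' i) : Cd F c M L u ↔ Cd F c M L u' :=
  ⟨Cd_mp F L hu, Cd_mp F L fun i => by
    have := hu i
    rw [← dvd_neg] at this
    rwa [neg_sub] at this⟩

theorem pf_CRL (_hGGE : T_GGE) : T_CRL := by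
  intro r F L c M M' hM0 hM0' hco
  classical
  have hMz : (0 : ℤ) < M := by exact_mod_cast hM0
  have hMz' : (0 : ℤ) < M' := by exact_mod_cast hM0'
  have hcoz : IsCoprime (M : ℤ) M' := Nat.isCoprime_iff_coprime.2 hco
  have hsplit : ∀ u : Fin r → ℤ, Cd F c (M * M') L u ↔ Cd F c M L u ∧ Cd F c M' L u := by
    intro u
    unfold Cd
    push_cast
    constructor
    · rintro ⟨h1, h2⟩
      exact ⟨⟨fun i => (dvd_mul_right _ _).trans (h1 i), fun p hp h => h2 p hp (h.mul_right _)⟩,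
        ⟨fun i => (dvd_mul_left _ _).trans (h1 i), fun p hp h => h2 p hp (h.mul_left _)⟩⟩
    · rintro ⟨⟨h1, h2⟩, ⟨h3, h4⟩⟩
      refine ⟨fun i => hcoz.mul_dvd (h1 i) (h3 i), fun p hp h => ?_⟩
      rcases (Nat.Prime.dvd_mul hp).1 h with h5 | h5
      · exact h2 p hp h5
      · exact h4 p hp h5
  rw [← card_product]
  refine Finset.card_bij (fun u _ => (fun i => u i % (M : ℤ), fun i => u i % (M' : ℤ))) ?_ ?_ ?_
  · intro u hu
    rw [mem_UL] at hu
    obtain ⟨h1, h2⟩ := (hsplit u).1 hu.2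
    rw [mem_product, mem_UL, mem_UL]
    refine ⟨⟨fun i => ⟨Int.emod_nonneg _ hMz.ne', Int.emod_lt_of_pos _ hMz⟩, ?_⟩,
      ⟨fun i => ⟨Int.emod_nonneg _ hMz'.ne', Int.emod_lt_of_pos _ hMz'⟩, ?_⟩⟩
    · exact (Cd_iff F L fun i => Int.dvd_self_sub_emod).1 h1
    · exact (Cd_iff F L fun i => Int.dvd_self_sub_emod).1 h2
  · intro u hu u' hu' h
    rw [mem_UL] at hu hu'
    rw [Prod.mk.injEq] at h
    funext i
    have h1 : (M : ℤ) ∣ u i - u' i := by
      have h1 := congrFun h.1 i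
      exact Int.ModEq.dvd (Int.ModEq.symm h1)
    have h2 : (M' : ℤ) ∣ u i - u' i := by
      have h1 := congrFun h.2 i
      exact Int.ModEq.dvd (Int.ModEq.symm h1)
    have h3 : (M : ℤ) * M' ∣ u i - u' i := hcoz.mul_dvd h1 h2
    have h4 := hu.1 i
    have h5 := hu'.1 i
    push_cast at h4 h5
    have h6 : u i - u' i = 0 := by
      refine Int.eq_zero_of_abs_lt_dvd h3 (abs_lt.2 ⟨?_, ?_⟩)
      · linarith [h4.1, h5.2]
      · linarith [h4.2, h5.1]
    linarith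
  · rintro ⟨a, b⟩ hab
    rw [mem_product, mem_UL, mem_UL] at hab
    obtain ⟨⟨ha1, ha2⟩, ⟨hb1, hb2⟩⟩ := hab
    dsimp only at ha1 ha2 hb1 hb2
    obtain ⟨r', s, hrs⟩ := hcoz
    have hz : ∀ i, ∃ z : ℤ, 0 ≤ z ∧ z < (M * M' : ℕ) ∧ z % M = a i ∧ z % M' = b i := by
      intro i
      refine ⟨(b i * (r' * M) + a i * (s * M')) % ((M * M' : ℕ) : ℤ), Int.emod_nonneg _ ?_,
        Int.emod_lt_of_pos _ ?_, ?_, ?_⟩
      · push_cast
        positivity
      · push_cast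
        positivity
      · rw [Int.emod_emod_of_dvd _ (by push_cast; exact dvd_mul_right _ _)]
        have e1 : b i * (r' * M) + a i * (s * M') = a i + M * ((b i - a i) * r') := by
          have : s * (M' : ℤ) = 1 - r' * M := by linarith
          rw [this]
          ring
        rw [e1, Int.add_mul_emod_self_left]
        exact Int.emod_eq_of_lt (ha1 i).1 (ha1 i).2
      · rw [Int.emod_emod_of_dvd _ (by push_cast; exact dvd_mul_left _ _)]
        have e1 : b i * (r' * M) + a i * (s * M') = b i + M' * ((a i - b i) * s) := by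
          have : r' * (M : ℤ) = 1 - s * M' := by linarith
          rw [this]
          ring
        rw [e1, Int.add_mul_emod_self_left]
        exact Int.emod_eq_of_lt (hb1 i).1 (hb1 i).2
    choose z hz1 hz2 hz3 hz4 using hz
    have e1 : (fun i => z i % (M : ℤ)) = a := funext hz3
    have e2 : (fun i => z i % (M' : ℤ)) = b := funext hz4
    refine ⟨z, ?_, by rw [e1, e2]⟩
    rw [mem_UL]
    refine ⟨fun i => ⟨hz1 i, hz2 i⟩, (hsplit z).2 ⟨?_, ?_⟩⟩
    · refine (Cd_iff F L fun i => ?_).2 ha2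
      have := hz3 i
      rw [← this]
      exact Int.dvd_self_sub_emod
    · refine (Cd_iff F L fun i => ?_).2 hb2
      have := hz4 i
      rw [← this]
      exact Int.dvd_self_sub_emod

end Pool.Agent.H52.HFS
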