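import Pool.Agent.H34.FS.Targets
import Pool.Agent.H32.RQ.RAT

/-!
# Row FIN of hfs_modules: the final statement
-/

set_option autoImplicit false

open Finset Pool.Agent.H32.RQ Pool.Agent.H34.FQ

namespace Pool.Agent.H52.HFS

open Pool.Agent.H34.FS

theorem lp_of_qz {s : ℕ} {c : Fin 2 → Mon s → ℤ} (h : QZ c) : LP c :=
  (Pool.Agent.H32.RQ.RatZ.ls_of_zero c h).2

theorem qz_of_szf {r : ℕ} {F : Fin 2 → Mon r → ℤ} {K A : ℕ} {L : Fin 2 → Fin (r + 1) → ℤ}
    (h : SZF F K A L) : QZ (gg F L) := by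
  obtain ⟨c, x, hc, -, hx, -⟩ := h
  refine ⟨cv (c : ℤ) x, fun h0 => ?_, hx⟩
  have h1 := congrFun h0 0
  have h2 : (c : ℤ) = 0 := h1
  omega

theorem lp_gg (hGGE : T_GGE) {r : ℕ} {F : Fin 2 → Mon r → ℤ} (h : LP F)
    (L : Fin 2 → Fin (r + 1) → ℤ) : LP (gg F L) := by
  intro p hp
  obtain ⟨x, hx, hx0⟩ := h p
  refine ⟨cv 0 x, fun h0 => hx ?_, fun i => ?_⟩
  · funext j
    exact congrFun h0 j.succ
  · have e1 : cm ℚ_[p] (gg F L) i = gf (cm ℚ_[p] F i) (fun j => ((L i j : ℤ) : ℚ_[p])) := by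
      funext q
      exact (hGGE ℤ r (F i) (L i) 0 0).2.2.2 ℚ_[p] (Int.castRingHom ℚ_[p]) q
    have e2 := (hGGE ℚ_[p] r (cm ℚ_[p] F i) (fun j => ((L i j : ℤ) : ℚ_[p])) 0 x).1
    rw [e1, e2, hx0 i, zero_mul, add_zero]

open Classical in
theorem pf_FIN (hSPL : T_SPL) (hSZ2 : T_SZ2) (hPOL : T_POL) (hHPL : T_HPL) (hTBL : T_TBL)
    (hGGE : T_GGE) : T_FIN := by
  intro r F hr hSm
  obtain ⟨P, hP, hPS⟩ := hSPL r F (by omega) hSm
  have hcard : ∀ A : ℕ, ((bL r A).card : ℝ) = (2 * (A : ℝ) + 1) ^ (2 * (r + 1)) := by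
    intro A
    rw [(hTBL r A).1]
    push_cast
    ring
  have hpos : ∀ A : ℕ, (0 : ℝ) < (bL r A).card := by
    intro A
    rw [hcard]
    positivity
  have hN : ∀ ε : ℝ, 0 < ε → ∃ A₀ : ℕ, ∀ A : ℕ, A₀ ≤ A →
      (((bL r A).filter fun L => ¬ Sm (gg F L)).card : ℝ) ≤ ε * (bL r A).card := by
    intro ε hε
    obtain ⟨A₀, h⟩ := hSZ2 r P hP ε hε
    refine ⟨A₀, fun A hA => ?_⟩
    rw [hcard]
    refine le_trans (Nat.cast_le.mpr (Finset.card_le_card ?_)) (h A hA)
    intro c hc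
    rw [Finset.mem_filter] at hc ⊢
    refine ⟨hc.1, ?_⟩
    by_contra h0
    exact hc.2 (hPS c h0)
  have hH : ∀ ε : ℝ, 0 < ε → ∃ K A₀ : ℕ, ∀ A : ℕ, A₀ ≤ A →
      (((bL r A).filter fun L => LP (gg F L) ∧ ¬ SZF F K A L).card : ℝ) ≤
        ε * ((bL r A).card : ℝ) := by
    intro ε hε
    obtain ⟨K, A₃, hA₃⟩ := hHPL r F hr hSm ε hε
    refine ⟨K, A₃, fun A hA => ?_⟩
    rw [hcard]
    exact hA₃ A hA
  obtain ⟨δ, hδ, A₁, hA₁⟩ := hPOL r F hr
  have hZ : ∃ A₂ : ℕ, ∀ A : ℕ, A₂ ≤ A → δ / 2 * ((bL r A).card : ℝ) ≤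
      (((bL r A).filter fun L => Sm (gg F L) ∧ QZ (gg F L)).card : ℝ) := by
    obtain ⟨A₃, hA₃⟩ := hN (δ / 2) (by positivity)
    refine ⟨max A₁ A₃, fun A hA => ?_⟩
    have h1 := hA₁ A (le_trans (le_max_left _ _) hA)
    have h2 := hA₃ A (le_trans (le_max_right _ _) hA)
    rw [← hcard] at h1
    have h3 : (((bL r A).filter fun L => QZ (gg F L)).card : ℝ) ≤
        (((bL r A).filter fun L => Sm (gg F L) ∧ QZ (gg F L)).card : ℝ) +
          (((bL r A).filter fun L => ¬ Sm (gg F L)).card : ℝ) := by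
      have h4 : ((bL r A).filter fun L => QZ (gg F L)) ⊆
          ((bL r A).filter fun L => Sm (gg F L) ∧ QZ (gg F L)) ∪
            (bL r A).filter fun L => ¬ Sm (gg F L) := by
        intro c hc
        rw [Finset.mem_filter] at hc
        by_cases hs : Sm (gg F c)
        · exact Finset.mem_union_left _ (Finset.mem_filter.mpr ⟨hc.1, hs, hc.2⟩)
        · exact Finset.mem_union_right _ (Finset.mem_filter.mpr ⟨hc.1, hs⟩)
      have h5 := (Finset.card_le_card h4).trans (Finset.card_union_le _ _)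
      exact_mod_cast h5
    linarith
  refine ⟨?_, ⟨δ / 2, by positivity, hZ⟩, ?_, ?_, hH⟩
  · rw [Metric.tendsto_atTop]
    intro ε hε
    obtain ⟨A₀, h⟩ := hN (ε / 2) (by positivity)
    refine ⟨A₀, fun A hA => ?_⟩
    rw [Real.dist_eq, sub_zero, abs_of_nonneg (by positivity), div_lt_iff₀ (hpos A)]
    have h0 := h A hA
    have h1 := hpos A
    have h2 : 0 < ε / 2 * ((bL r A).card : ℝ) := by positivity
    have h3 : ε / 2 * ((bL r A).card : ℝ) + ε / 2 * ((bL r A).card : ℝ) =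
      ε * ((bL r A).card : ℝ) := by ring
    linarith
  · obtain ⟨A₂, hA₂⟩ := hZ
    rw [Metric.tendsto_atTop]
    intro ε hε
    obtain ⟨K, A₃, hA₃⟩ := hH (ε * (δ / 2) / 2) (by positivity)
    refine ⟨max A₂ A₃, fun A hA => ?_⟩
    have h1 := hA₂ A (le_trans (le_max_left _ _) hA)
    have h2 := hA₃ A (le_trans (le_max_right _ _) hA)
    have hb := hpos A
    obtain ⟨X, hX⟩ : ∃ X : ℕ, X = ((bL r A).filter fun L =>
      Sm (gg F L) ∧ LP (gg F L) ∧ QZ (gg F L)).card := ⟨_, rfl⟩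
    obtain ⟨Y, hY⟩ : ∃ Y : ℕ, Y = ((bL r A).filter fun L =>
      Sm (gg F L) ∧ LP (gg F L)).card := ⟨_, rfl⟩
    rw [← hX, ← hY]
    have hXZ : (((bL r A).filter fun L => Sm (gg F L) ∧ QZ (gg F L)).card : ℝ) ≤ X := by
      rw [hX]
      refine Nat.cast_le.mpr (Finset.card_le_card ?_)
      intro c hc
      rw [Finset.mem_filter] at hc ⊢
      exact ⟨hc.1, hc.2.1, lp_of_qz hc.2.2, hc.2.2⟩
    have hXY : (X : ℝ) ≤ Y := by
      rw [hX, hY]
      refine Nat.cast_le.mpr (Finset.card_le_card ?_)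
      intro c hc
      rw [Finset.mem_filter] at hc ⊢
      exact ⟨hc.1, hc.2.1, hc.2.2.1⟩
    have hYX : (Y : ℝ) ≤ X +
        (((bL r A).filter fun L => LP (gg F L) ∧ ¬ SZF F K A L).card : ℝ) := by
      have h4 : ((bL r A).filter fun L => Sm (gg F L) ∧ LP (gg F L)) ⊆
          ((bL r A).filter fun L => Sm (gg F L) ∧ LP (gg F L) ∧ QZ (gg F L)) ∪
            (bL r A).filter fun L => LP (gg F L) ∧ ¬ SZF F K A L := by
        intro c hc
        rw [Finset.mem_filter] at hc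
        by_cases hz : SZF F K A c
        · exact Finset.mem_union_left _ (Finset.mem_filter.mpr
            ⟨hc.1, hc.2.1, hc.2.2, qz_of_szf hz⟩)
        · exact Finset.mem_union_right _ (Finset.mem_filter.mpr ⟨hc.1, hc.2.2, hz⟩)
      have h5 := (Finset.card_le_card h4).trans (Finset.card_union_le _ _)
      rw [← hX, ← hY] at h5
      exact_mod_cast h5
    have hX0 : δ / 2 * ((bL r A).card : ℝ) ≤ X := h1.trans hXZ
    have hY0 : (0 : ℝ) < Y := lt_of_lt_of_le (by positivity) (hX0.trans hXY)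
    have e : (X : ℝ) / Y - 1 = -((Y - X) / Y) := by
      field_simp
      ring
    rw [Real.dist_eq, e, abs_neg, abs_of_nonneg (div_nonneg (by linarith) hY0.le),
      div_lt_iff₀ hY0]
    have h6 : ε * (δ / 2) / 2 * ((bL r A).card : ℝ) ≤ ε / 2 * Y := by
      have h7 : δ / 2 * ((bL r A).card : ℝ) ≤ Y := hX0.trans hXY
      calc ε * (δ / 2) / 2 * ((bL r A).card : ℝ) =
          ε / 2 * (δ / 2 * ((bL r A).card : ℝ)) := by ring
        _ ≤ ε / 2 * Y := mul_le_mul_of_nonneg_left h7 (by positivity)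
    have h8 : 0 < ε / 2 * (Y : ℝ) := by positivity
    linarith
  · intro hLP
    rw [Metric.tendsto_atTop]
    intro ε hε
    obtain ⟨A₀, h0⟩ := hN (ε / 3) (by positivity)
    obtain ⟨K, A₃, hA₃⟩ := hH (ε / 3) (by positivity)
    refine ⟨max A₀ A₃, fun A hA => ?_⟩
    have h1 := h0 A (le_trans (le_max_left _ _) hA)
    have h2 := hA₃ A (le_trans (le_max_right _ _) hA)
    have hb := hpos A
    have hle : (((bL r A).filter fun L => Sm (gg F L) ∧ QZ (gg F L)).card : ℝ) ≤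
        (bL r A).card := by
      exact_mod_cast Finset.card_filter_le _ _
    have hge : ((bL r A).card : ℝ) ≤
        (((bL r A).filter fun L => Sm (gg F L) ∧ QZ (gg F L)).card : ℝ) +
        ((((bL r A).filter fun L => ¬ Sm (gg F L)).card : ℝ) +
        (((bL r A).filter fun L => LP (gg F L) ∧ ¬ SZF F K A L).card : ℝ)) := by
      have h4 : bL r A ⊆ ((bL r A).filter fun L => Sm (gg F L) ∧ QZ (gg F L)) ∪
          (((bL r A).filter fun L => ¬ Sm (gg F L)) ∪
            (bL r A).filter fun L => LP (gg F L) ∧ ¬ SZF F K A L) := by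
        intro c hc
        by_cases hs : Sm (gg F c)
        · by_cases hz : SZF F K A c
          · exact Finset.mem_union_left _ (Finset.mem_filter.mpr ⟨hc, hs, qz_of_szf hz⟩)
          · exact Finset.mem_union_right _ (Finset.mem_union_right _
              (Finset.mem_filter.mpr ⟨hc, lp_gg hGGE hLP c, hz⟩))
        · exact Finset.mem_union_right _ (Finset.mem_union_left _
            (Finset.mem_filter.mpr ⟨hc, hs⟩))
      have h5 := (Finset.card_le_card h4).trans ((Finset.card_union_le _ _).trans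
        (Nat.add_le_add_left (Finset.card_union_le _ _) _))
      exact_mod_cast h5
    have e : (((bL r A).filter fun L => Sm (gg F L) ∧ QZ (gg F L)).card : ℝ) /
        (bL r A).card - 1 = -(((bL r A).card -
          ((bL r A).filter fun L => Sm (gg F L) ∧ QZ (gg F L)).card) / (bL r A).card) := by
      field_simp
      ring
    rw [Real.dist_eq, e, abs_neg, abs_of_nonneg (div_nonneg (by linarith) hb.le),
      div_lt_iff₀ hb]
    have h8 : 0 < ε / 3 * ((bL r A).card : ℝ) := by positivity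
    have h9 : ε / 3 * ((bL r A).card : ℝ) + ε / 3 * ((bL r A).card : ℝ) +
      ε / 3 * ((bL r A).card : ℝ) = ε * ((bL r A).card : ℝ) := by ring
    linarith

end Pool.Agent.H52.HFS
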