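import Pool.Agent.H34.FS.Targets

/-!
# Row LPL of hfs_modules: the pairs with a `p`-adic zero which are not robust at `p` are rare
-/

set_option autoImplicit false

open Finset Pool.Agent.H32.RQ Pool.Agent.H34.FQ

namespace Pool.Agent.H52.HFS

open Pool.Agent.H34.FS

theorem pf_LPL (hPNL : T_PNL) (hMVL : T_MVL) : T_LPL := by
  intro r F p hp ε hr hSm hε
  classical
  obtain ⟨t₀, ht₀⟩ := hMVL r F p hSm
  obtain ⟨C, hC, hPN⟩ := hPNL r F p hr hSm hp.out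
  have hp2 : (2 : ℝ) ≤ p := by exact_mod_cast hp.out.two_le
  obtain ⟨k, hk⟩ := pow_unbounded_of_one_lt (C / ε) (lt_of_lt_of_le one_lt_two hp2)
  refine ⟨k + t₀, fun t ht => ?_⟩
  obtain ⟨s, rfl⟩ : ∃ s, t = s + t₀ := ⟨t - t₀, by omega⟩
  have hks : k ≤ s := by omega
  refine ⟨p ^ s, fun A hA => ?_⟩
  have h1 := hPN s A (hA.trans (by omega))
  have hsub : ((bL r A).filter fun L => (∃ z : Fin (r + 1) → ℚ_[p], z ≠ 0 ∧
      ∀ i, qf (cm ℚ_[p] (gg F L) i) z = 0) ∧ ¬ RL F (s + t₀) p L) ⊆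
      ((bL r A).filter fun L => NP s p (gg F L)) := by
    intro L hL
    rw [mem_filter] at hL ⊢
    refine ⟨hL.1, ?_⟩
    by_contra hN
    exact hL.2.2 (ht₀ s L hL.2.1 hN)
  have h2 : (((bL r A).filter fun L => (∃ z : Fin (r + 1) → ℚ_[p], z ≠ 0 ∧
      ∀ i, qf (cm ℚ_[p] (gg F L) i) z = 0) ∧ ¬ RL F (s + t₀) p L).card : ℝ) ≤
      (((bL r A).filter fun L => NP s p (gg F L)).card : ℝ) := by
    exact_mod_cast card_le_card hsub
  refine h2.trans ?_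
  have hps : (0 : ℝ) < (p : ℝ) ^ s := by positivity
  have h3 : C ≤ ε * (p : ℝ) ^ s := by
    have h4 : (p : ℝ) ^ k ≤ (p : ℝ) ^ s := pow_le_pow_right₀ (by linarith) hks
    rw [div_lt_iff₀ hε] at hk
    nlinarith
  have hX : (0 : ℝ) ≤ (2 * (A : ℝ) + 1) ^ (2 * (r + 1)) := by positivity
  have h5 : (((bL r A).filter fun L => NP s p (gg F L)).card : ℝ) * (p : ℝ) ^ s ≤
      (ε * (2 * (A : ℝ) + 1) ^ (2 * (r + 1))) * (p : ℝ) ^ s := by
    refine h1.trans ?_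
    have := mul_le_mul_of_nonneg_right h3 hX
    calc C * (2 * (A : ℝ) + 1) ^ (2 * (r + 1)) ≤
        ε * (p : ℝ) ^ s * (2 * (A : ℝ) + 1) ^ (2 * (r + 1)) := this
      _ = (ε * (2 * (A : ℝ) + 1) ^ (2 * (r + 1))) * (p : ℝ) ^ s := by ring
  exact le_of_mul_le_mul_right h5 hps

end Pool.Agent.H52.HFS
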