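import Pool.Agent.H34.FS.Targets
import Pool.Agent.H75.RQ.PXY

/-!
# Row PXL of hfs_modules: the frequencies of the correlation in the plane (twin: H20/HFQ/PX1)
-/

set_option autoImplicit false

open Finset Pool.Agent.H32.RQ Pool.Agent.H34.FQ

namespace Pool.Agent.H52.HFS

open Pool.Agent.H34.FS
open Pool.Agent.H75.RQ (gm_pos cramer)

/-- the structure of a frequency -/
def Frl {n : ℕ} (Q J : ℕ) (z z' : Fin n → ℤ) (q : ZMod Q × ZMod Q) (α β : ℚ) : Prop :=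
  (∀ p : Fin n, |(q.1.valMinAbs : ℝ) * (z p : ℝ) + (q.2.valMinAbs : ℝ) * (z' p : ℝ) -
    Q * ((α : ℝ) * (z p : ℝ) + (β : ℝ) * (z' p : ℝ))| < J) ∧
  (∀ p, ∃ m : ℤ, (m : ℚ) = α * z p + β * z' p) ∧
  (∃ a : ℤ, (gm z z' : ℚ) * α = a) ∧ ∃ a : ℤ, (gm z z' : ℚ) * β = a

theorem den_dvd (α : ℚ) (N m : ℤ) (h : (m : ℚ) = α * N) : (α.den : ℤ) ∣ N := by
  have h1 : α.num * N = m * α.den := by
    have h2 : (α.num : ℚ) * N = m * α.den := by
      rw [h, mul_right_comm, Rat.mul_den_eq_num]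
    exact_mod_cast h2
  have h3 : (α.den : ℤ) ∣ α.num * N := ⟨m, by rw [h1, mul_comm]⟩
  have h4 : IsCoprime (α.den : ℤ) α.num := by
    rw [Int.isCoprime_iff_nat_coprime]
    simpa using α.reduced.symm
  exact h4.dvd_of_dvd_mul_left h3

theorem gm_int {n : ℕ} (z z' : Fin n → ℤ) (α : ℚ)
    (h : ∀ i l, ∃ m : ℤ, (m : ℚ) = α * (mnr z z' i l : ℤ)) : ∃ a : ℤ, (gm z z' : ℚ) * α = a := by
  have h1 : α.den ∣ gm z z' := by
    unfold gm
    refine Finset.dvd_gcd fun p _ => ?_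
    obtain ⟨m, hm⟩ := h p.1 p.2
    exact Int.natCast_dvd.1 (den_dvd α _ m hm)
  obtain ⟨w, hw⟩ := h1
  refine ⟨w * α.num, ?_⟩
  rw [hw]
  push_cast
  have h2 := Rat.mul_den_eq_num α
  rw [← h2]
  ring

theorem frl_ex {n J Q : ℕ} [NeZero Q] (z z' : Fin n → ℤ) (q : ZMod Q × ZMod Q)
    (hq : q ∈ zl Q J z z' \ zu Q J z z') : ∃ α β : ℚ, Frl Q J z z' q α β := by
  classical
  obtain ⟨h1, h2⟩ := Finset.mem_sdiff.1 hq
  have h3 : ∃ α β : ℚ, ∀ p, (mq Q z z' q p : ℚ) = α * z p + β * z' p := by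
    by_contra h
    exact h2 (Finset.mem_filter.2 ⟨h1, h⟩)
  obtain ⟨α, β, hab⟩ := h3
  have h4 := (Finset.mem_filter.1 h1).2
  have hQ0 : (Q : ℤ) ≠ 0 := by exact_mod_cast NeZero.ne Q
  have hm : ∀ p, (Q : ℤ) * mq Q z z' q p = q.1.valMinAbs * z p + q.2.valMinAbs * z' p -
      (q.1 * (z p : ZMod Q) + q.2 * (z' p : ZMod Q)).valMinAbs := by
    intro p
    unfold mq
    refine Int.mul_ediv_cancel' ?_
    rw [← ZMod.intCast_zmod_eq_zero_iff_dvd]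
    push_cast
    rw [sub_self]
  have hint : ∀ p, ∃ m : ℤ, (m : ℚ) = α * z p + β * z' p := fun p => ⟨_, hab p⟩
  refine ⟨α, β, fun p => ?_, hint, ?_, ?_⟩
  · have h5 : ((q.1.valMinAbs : ℝ) * (z p : ℝ) + (q.2.valMinAbs : ℝ) * (z' p : ℝ) -
        Q * ((α : ℝ) * (z p : ℝ) + (β : ℝ) * (z' p : ℝ))) =
        (((q.1 * (z p : ZMod Q) + q.2 * (z' p : ZMod Q)).valMinAbs : ℤ) : ℝ) := by
      have h6 : ((mq Q z z' q p : ℤ) : ℝ) = (α : ℝ) * (z p : ℝ) + (β : ℝ) * (z' p : ℝ) := by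
        have h7 : (((mq Q z z' q p : ℤ) : ℚ) : ℝ) = ((α * z p + β * z' p : ℚ) : ℝ) := by
          rw [hab p]
        push_cast at h7
        exact h7
      rw [← h6]
      have h8 : (((Q : ℤ) * mq Q z z' q p : ℤ) : ℝ) = ((q.1.valMinAbs * z p +
        q.2.valMinAbs * z' p -
        (q.1 * (z p : ZMod Q) + q.2 * (z' p : ZMod Q)).valMinAbs : ℤ) : ℝ) := by rw [hm p]
      push_cast at h8
      linarith
    rw [h5]
    have h6 := h4 p
    have h7 : ((|(q.1 * (z p : ZMod Q) + q.2 * (z' p : ZMod Q)).valMinAbs| : ℤ) : ℝ) <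
        ((J : ℤ) : ℝ) := by exact_mod_cast h6
    push_cast at h7
    exact h7
  · refine gm_int z z' α fun i l => ?_
    refine ⟨mq Q z z' q i * z' l - mq Q z z' q l * z' i, ?_⟩
    unfold mnr
    push_cast
    rw [hab i, hab l]
    ring
  · refine gm_int z z' β fun i l => ?_
    refine ⟨z i * mq Q z z' q l - z l * mq Q z z' q i, ?_⟩
    unfold mnr
    push_cast
    rw [hab i, hab l]
    ring

theorem fibre_l (hCNT : T_CNT) {n J Q : ℕ} [NeZero Q] (z z' : Fin n → ℤ) (p q : Fin n) (Δ : ℕ)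
    (pz : Prm z) (hΔ : Δ = (mnr z z' p q).natAbs) (h1Δ : 1 ≤ Δ) (hΔJ : Δ ≤ J)
    (F : Finset (ZMod Q × ZMod Q)) (al be : ZMod Q × ZMod Q → ℚ)
    (hF : ∀ w ∈ F, Frl Q J z z' w (al w) (be w))
    (hcl : ∀ w ∈ F, ∀ w' ∈ F, ∃ t : ℤ, be w - be w' = t) :
    (F.card : ℝ) * Δ ≤ 9 * (J : ℝ) ^ 2 := by
  rcases F.eq_empty_or_nonempty with rfl | ⟨w₀, hw₀⟩
  · simp
  obtain ⟨h1, h2, -, -⟩ := hF w₀ hw₀
  obtain ⟨c, hc⟩ := pz
  have hs : ∀ w ∈ F, ∃ s₁ s₂ : ℤ, al w - al w₀ = s₁ ∧ be w - be w₀ = s₂ := by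
    intro w hw
    obtain ⟨t, ht⟩ := hcl w hw w₀ hw₀
    choose m hm using (hF w hw).2.1
    choose m' hm' using h2
    refine ⟨∑ i, c i * (m i - m' i - t * z' i), t, ?_, ht⟩
    have e1 : ∀ i, (al w - al w₀) * z i = ((m i - m' i - t * z' i : ℤ) : ℚ) := by
      intro i
      push_cast
      rw [hm, hm', ← ht]
      ring
    have e2 : ((∑ i, c i * z i : ℤ) : ℚ) = 1 := by rw [hc]; norm_num
    calc al w - al w₀ = (al w - al w₀) * ((∑ i, c i * z i : ℤ) : ℚ) := by rw [e2, mul_one]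
      _ = ∑ i, (c i : ℚ) * ((al w - al w₀) * z i) := by
          push_cast
          rw [Finset.mul_sum]
          exact Finset.sum_congr rfl fun i _ => by ring
      _ = ((∑ i, c i * (m i - m' i - t * z' i) : ℤ) : ℚ) := by
          rw [Int.cast_sum]
          refine Finset.sum_congr rfl fun i _ => ?_
          rw [e1 i]
          push_cast
          ring
  choose! s₁ s₂ hs₁ hs₂ using hs
  obtain ⟨hfin, hcnt⟩ := hCNT (z p) (z' p) (z q) (z' q) Δ J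
    (Q * ((al w₀ : ℝ) * (z p : ℝ) + (be w₀ : ℝ) * (z' p : ℝ)))
    (Q * ((al w₀ : ℝ) * (z q : ℝ) + (be w₀ : ℝ) * (z' q : ℝ))) hΔ h1Δ hΔJ
  set T : Set (ℤ × ℤ) := {q' : ℤ × ℤ | |(q'.1 * (z p : ℤ) + q'.2 * (z' p : ℤ) : ℝ) -
      (Q * ((al w₀ : ℝ) * (z p : ℝ) + (be w₀ : ℝ) * (z' p : ℝ)))| < J ∧
    |(q'.1 * (z q : ℤ) + q'.2 * (z' q : ℤ) : ℝ) -
      (Q * ((al w₀ : ℝ) * (z q : ℝ) + (be w₀ : ℝ) * (z' q : ℝ)))| < J} with hT
  set G : ZMod Q × ZMod Q → ℤ × ℤ := fun w =>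
    (w.1.valMinAbs - Q * s₁ w, w.2.valMinAbs - Q * s₂ w) with hG
  have hmem : ∀ w ∈ F, G w ∈ T := by
    intro w hw
    have g1 := (hF w hw).1
    have e1 : (s₁ w : ℝ) = (al w : ℝ) - (al w₀ : ℝ) := by
      have : ((s₁ w : ℚ) : ℝ) = ((al w - al w₀ : ℚ) : ℝ) := by rw [hs₁ w hw]
      push_cast at this
      exact this
    have e2 : (s₂ w : ℝ) = (be w : ℝ) - (be w₀ : ℝ) := by
      have : ((s₂ w : ℚ) : ℝ) = ((be w - be w₀ : ℚ) : ℝ) := by rw [hs₂ w hw]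
      push_cast at this
      exact this
    have e3 : ∀ p' : Fin n, (((w.1.valMinAbs - Q * s₁ w : ℤ) : ℝ) * (z p' : ℝ) +
        ((w.2.valMinAbs - Q * s₂ w : ℤ) : ℝ) * (z' p' : ℝ)) -
        (Q * ((al w₀ : ℝ) * (z p' : ℝ) + (be w₀ : ℝ) * (z' p' : ℝ))) =
        (w.1.valMinAbs : ℝ) * (z p' : ℝ) + (w.2.valMinAbs : ℝ) * (z' p' : ℝ) -
        Q * ((al w : ℝ) * (z p' : ℝ) + (be w : ℝ) * (z' p' : ℝ)) := by
      intro p'
      push_cast
      rw [e1, e2]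
      ring
    refine ⟨?_, ?_⟩
    · change |(((w.1.valMinAbs - Q * s₁ w : ℤ) : ℝ) * (z p : ℝ) +
        ((w.2.valMinAbs - Q * s₂ w : ℤ) : ℝ) * (z' p : ℝ)) -
        (Q * ((al w₀ : ℝ) * (z p : ℝ) + (be w₀ : ℝ) * (z' p : ℝ)))| < J
      rw [e3 p]
      exact g1 p
    · change |(((w.1.valMinAbs - Q * s₁ w : ℤ) : ℝ) * (z q : ℝ) +
        ((w.2.valMinAbs - Q * s₂ w : ℤ) : ℝ) * (z' q : ℝ)) -
        (Q * ((al w₀ : ℝ) * (z q : ℝ) + (be w₀ : ℝ) * (z' q : ℝ)))| < J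
      rw [e3 q]
      exact g1 q
  have hinj : Set.InjOn G (F : Set (ZMod Q × ZMod Q)) := by
    intro w _ w' _ h
    have e : ∀ w : ZMod Q × ZMod Q, w = (((G w).1 : ZMod Q), ((G w).2 : ZMod Q)) := by
      intro w
      simp only [hG]
      push_cast
      rw [ZMod.natCast_self]
      simp
    rw [e w, e w', h]
  have hle : (F.card : ℝ) ≤ (T.ncard : ℝ) := by
    have h3 : (F : Set (ZMod Q × ZMod Q)).ncard ≤ T.ncard :=
      Set.ncard_le_ncard_of_injOn G (fun w hw => hmem w hw) hinj hfin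
    rw [Set.ncard_coe_finset] at h3
    exact_mod_cast h3
  exact (mul_le_mul_of_nonneg_right hle (Nat.cast_nonneg _)).trans hcnt

theorem two_l {n B J Q W : ℕ} [NeZero Q] (z z' : Fin n → ℤ) (p q : Fin n) (hW : 1 ≤ W)
    (hWQ : W ∣ Q) (hB : ∀ p, |z' p| ≤ B)
    (hΔ : dm z z' = (mnr z z' p q).natAbs) (hg : gm z z' ∣ W)
    (w : ZMod Q × ZMod Q) (α β : ℚ) (hf : Frl Q J z z' w α β) : ∃ a m : ℤ,
      w.1 = ((m + a * ((Q / W : ℕ) : ℤ) : ℤ) : ZMod Q) ∧ |m| * dm z z' ≤ 2 * J * (B : ℤ) := by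
  obtain ⟨h1, -, ⟨a₁, ha₁⟩, -⟩ := hf
  obtain ⟨u, hu⟩ := hg
  obtain ⟨r, hr⟩ := hWQ
  have hQW : Q / W = r := by
    rw [hr]
    exact Nat.mul_div_cancel_left r hW
  refine ⟨a₁ * u, w.1.valMinAbs - a₁ * u * (r : ℤ), ?_, ?_⟩
  · rw [hQW, sub_add_cancel]
    exact (ZMod.coe_valMinAbs _).symm
  · have h2 : ((w.1.valMinAbs - a₁ * u * (r : ℤ) : ℤ) : ℝ) =
        (w.1.valMinAbs : ℝ) - Q * (α : ℝ) := by
      have h3 : (a₁ : ℝ) = (gm z z' : ℝ) * (α : ℝ) := by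
        have h4 : ((a₁ : ℚ) : ℝ) = (((gm z z' : ℚ) * α : ℚ) : ℝ) := by rw [ha₁]
        push_cast at h4
        exact h4
      have h5 : (Q : ℝ) = (gm z z' : ℝ) * u * r := by
        have h6 : Q = gm z z' * u * r := by
          conv_lhs => rw [hr, hu]
        rw [h6]
        push_cast
        ring
      push_cast
      rw [h3, h5]
      ring
    have hB' : ∀ p, |(z' p : ℝ)| ≤ (B : ℝ) := by
      intro p
      have h3 : ((|z' p| : ℤ) : ℝ) ≤ ((B : ℤ) : ℝ) := by exact_mod_cast hB p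
      push_cast at h3
      exact h3
    have h7 := cramer (w.1.valMinAbs : ℝ) (w.2.valMinAbs : ℝ) Q J (z p : ℝ) (z' p : ℝ)
      (z q : ℝ) (z' q : ℝ) α β (B : ℝ) (h1 p).le (h1 q).le (hB' p) (hB' q) (Nat.cast_nonneg _)
    rw [← h2] at h7
    have h8 : |(z p : ℝ) * (z' q : ℝ) - (z q : ℝ) * (z' p : ℝ)| = (dm z z' : ℝ) := by
      rw [hΔ, Nat.cast_natAbs]
      unfold mnr
      push_cast
      rfl
    rw [h8] at h7
    have h9 : ((|w.1.valMinAbs - a₁ * u * (r : ℤ)| * (dm z z' : ℤ) : ℤ) : ℝ) ≤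
        ((2 * J * (B : ℤ) : ℤ) : ℝ) := by
      push_cast
      push_cast at h7
      exact h7
    exact_mod_cast h9

/-- **PXL.** -/
theorem pf_PXL (hCNT : T_CNT) : T_PXL := by
  intro n B A J Q W _ z z' hA hQ hW hWQ pz hB hd1 hdJ
  classical
  have hd : dm z z' ≠ 0 := by omega
  have hne : (Finset.univ : Finset (Fin n × Fin n)).Nonempty := by
    by_contra h
    rw [Finset.not_nonempty_iff_eq_empty] at h
    refine hd ?_
    unfold dm
    rw [h, Finset.sup_empty]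
    rfl
  obtain ⟨⟨p, q⟩, -, hpq⟩ := Finset.exists_mem_eq_sup _ hne
    (fun p : Fin n × Fin n => (mnr z z' p.1 p.2).natAbs)
  have hΔ : dm z z' = (mnr z z' p q).natAbs := hpq
  have hex : ∀ w ∈ zl Q J z z' \ zu Q J z z', ∃ α β : ℚ, Frl Q J z z' w α β := fun w hw =>
    frl_ex z z' w hw
  choose! al be hab using hex
  refine ⟨?_, fun hg w hw => two_l z z' p q hW hWQ hB hΔ hg w _ _ (hab w hw)⟩
  have hg0 : 1 ≤ gm z z' := gm_pos z z' hd
  have : NeZero (gm z z') := ⟨by omega⟩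
  have hgQ : (gm z z' : ℚ) ≠ 0 := by
    have : gm z z' ≠ 0 := by omega
    exact_mod_cast this
  have hb2 : ∀ w ∈ zl Q J z z' \ zu Q J z z', ∃ a : ℤ, (gm z z' : ℚ) * be w = a :=
    fun w hw => (hab w hw).2.2.2
  choose! bb hbb using hb2
  have hcard : (zl Q J z z' \ zu Q J z z').card = ∑ t : ZMod (gm z z'),
      ((zl Q J z z' \ zu Q J z z').filter fun w => (bb w : ZMod (gm z z')) = t).card :=
    Finset.card_eq_sum_card_fiberwise (fun w _ => Finset.mem_univ _)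
  have hfib : ∀ t : ZMod (gm z z'),
      (((zl Q J z z' \ zu Q J z z').filter fun w => (bb w : ZMod (gm z z')) = t).card : ℝ) *
        dm z z' ≤ 9 * (J : ℝ) ^ 2 := by
    intro t
    refine fibre_l hCNT z z' p q (dm z z') pz hΔ hd1 hdJ _ al be
      (fun w hw => hab w (Finset.mem_filter.1 hw).1) ?_
    intro w hw w' hw'
    obtain ⟨h1, h2⟩ := Finset.mem_filter.1 hw
    obtain ⟨h3, h4⟩ := Finset.mem_filter.1 hw'
    have h5 : ((bb w - bb w' : ℤ) : ZMod (gm z z')) = 0 := by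
      push_cast
      rw [h2, h4, sub_self]
    obtain ⟨u, hu⟩ := (ZMod.intCast_zmod_eq_zero_iff_dvd _ (gm z z')).1 h5
    refine ⟨u, ?_⟩
    have h6 : (gm z z' : ℚ) * (be w - be w') = (gm z z' : ℚ) * u := by
      rw [mul_sub, hbb w h1, hbb w' h3]
      exact_mod_cast hu
    exact mul_left_cancel₀ hgQ h6
  rw [hcard]
  push_cast
  rw [Finset.sum_mul]
  calc ∑ t : ZMod (gm z z'), (((zl Q J z z' \ zu Q J z z').filter
        fun w => (bb w : ZMod (gm z z')) = t).card : ℝ) * dm z z'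
      ≤ ∑ _t : ZMod (gm z z'), 9 * (J : ℝ) ^ 2 := Finset.sum_le_sum fun t _ => hfib t
    _ = 9 * gm z z' * (J : ℝ) ^ 2 := by
        rw [Finset.sum_const, Finset.card_univ, ZMod.card, nsmul_eq_mul]
        ring

end Pool.Agent.H52.HFS
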